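import Pool.Agent.Lib.MP_07d10b_lc.Small
import Pool.Agent.Lib.MP_07d10b_lc.Null

/-! It is consistent with ZFC that `ℵ₁ < b < b_J < d_J < d < cov(N)` for some ideal `J` on `ω`. -/

namespace Pool.Agent.Results.MP_07d10b_lc.Consistency

open Pool.Agent.Lib.MP_2739cb_lc Pool.Agent.Shared.RealForcing Pool.Agent.Lib.MP_07d10b_lc
open Set Filter Cardinal Sys

section

variable {L J I W₁ W₂ : Type} [LinearOrder W₁] [LinearOrder W₂] (e₁ : W₁ ↪ L) (e₂ : W₂ ↪ L)

/-- The ideal: sets whose even part is small along `e₁` and whose odd part is small along `e₂`. -/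
def T (J I : Type) : Set (X L J × Om I → Set ℕ) :=
  {a | (sys L J I).Ms () a ∧ Small e₁ (fun y => a y ∩ {n | Even n}) ∧
    Small e₂ fun y => a y ∩ {n | ¬ Even n}}

variable {e₁ e₂}

theorem T_ms : ∀ a ∈ T e₁ e₂ J I, (sys L J I).Ms () a := fun _ h => h.1

theorem T_union : ∀ a ∈ T e₁ e₂ J I, ∀ b ∈ T e₁ e₂ J I, (fun y => a y ∪ b y) ∈ T e₁ e₂ J I := by
  rintro a ⟨h1, h2, h3⟩ b ⟨h4, h5, h6⟩
  let := (sys L J I).m ()
  refine ⟨measurable_set_iff.2 fun n => show Measurable fun y => n ∈ a y ∨ n ∈ b y by fun_prop,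
    (h2.union h5).mono fun y => Eventually.of_forall fun n => ?_,
    (h3.union h6).mono fun y => Eventually.of_forall fun n => ?_⟩ <;>
  exact fun h => h.1.imp (fun h' => ⟨h', h.2⟩) fun h' => ⟨h', h.2⟩

theorem freq_even : ∃ᶠ n in atTop, Even (n : ℕ) :=
  frequently_atTop.2 fun n => ⟨n + n, Nat.le_add_left n n, n, rfl⟩

theorem freq_odd : ∃ᶠ n in atTop, ¬ Even (n : ℕ) :=
  frequently_atTop.2 fun n => ⟨2 * n + 1, by omega, by simp⟩

theorem T_even : ∀ a ∈ T e₁ e₂ J I, ∀ᶠ y in (sys L J I).F (), ¬ {n | Even n} ⊆ a y :=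
  fun _ h => (h.2.1.frequently freq_even).mono fun _ hy h1 =>
    let ⟨_, h2, h3⟩ := hy.exists; h3 ⟨h1 h2, h2⟩

theorem T_odd : ∀ a ∈ T e₁ e₂ J I, ∀ᶠ y in (sys L J I).F (), ¬ {n | ¬ Even n} ⊆ a y :=
  fun _ h => (h.2.2.frequently freq_odd).mono fun _ hy h1 =>
    let ⟨_, h2, h3⟩ := hy.exists; h3 ⟨h1 h2, h2⟩

theorem isIdeal (U : GU (sys L J I).Cd) :
    IsIdeal (El U) (cl U om) (cl U (idl _ (T e₁ e₂ J I))) := by
  let := (sys L J I).m ()
  refine isIdeal_idl T_ms (fun a ⟨h1, h2, h3⟩ b hb => ⟨measurable_set_iff.2 fun n =>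
    show Measurable fun y => n ∈ b y ∧ n ∈ a y by fun_prop,
    h2.mono fun y => Eventually.of_forall fun n h => ⟨h.1.2, h.2⟩,
    h3.mono fun y => Eventually.of_forall fun n h => ⟨h.1.2, h.2⟩⟩) T_union
    (fun n => ⟨measurable_const, ?_, ?_⟩)
    (fun a ha => (T_even a ha).mono fun y h h' => h ((subset_univ _).trans h')) U <;>
  exact small_empty.mono fun y => (eventually_gt_atTop n).mono fun m h1 h2 => h1.not_ge h2.1

/-- The Cohen function at `ξ` on the even numbers and the one at `η` on the odd numbers. -/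
noncomputable def mix (J I : Type) (ξ η : L) (y : X L J × Om I) (n : ℕ) : ℕ :=
  if Even n then cf J I ξ y n else cf J I η y n

theorem ms_mix (ξ η : L) : (sys L J I).Ms () (mix J I ξ η) := by
  let := (sys L J I).m ()
  refine measurable_pi_lambda _ fun n => ?_
  unfold mix
  split_ifs
  · exact (ms_cf ξ).eval n
  · exact (ms_cf η).eval n

variable {f : X L J × Om I → ℕ → ℕ} {ξ η : L}

theorem leMod_mix (hf : (sys L J I).Ms () f) (h1 : Small e₁ fun y => {n | cf J I ξ y n ≤ f y n})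
    (h2 : Small e₂ fun y => {n | cf J I η y n ≤ f y n}) (U : GU (sys L J I).Cd) :
    LeMod (El U) (cl U (idl _ (T e₁ e₂ J I))) (cl U ((sys L J I).fnNm f))
      (cl U ((sys L J I).fnNm (mix J I ξ η))) := by
  let := (sys L J I).m ()
  have := ms_mix (J := J) (I := I) ξ η
  refine (leMod_fnNm hf this).2 (el_idl ⟨measurable_set_iff.2 fun n =>
    show Measurable fun y => mix J I ξ η y n < f y n by fun_prop,
    h1.mono fun y => Eventually.of_forall fun n h => ?_,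
    h2.mono fun y => Eventually.of_forall fun n h => ?_⟩)
  · exact ((if_pos h.2 : mix J I ξ η y n = _).symm.trans_lt (c := f y n) h.1).le
  · exact ((if_neg h.2 : mix J I ξ η y n = _).symm.trans_lt (c := f y n) h.1).le

theorem not_leMod_even (hf : (sys L J I).Ms () f)
    (h : Small e₁ fun y => {n | cf J I ξ y n ≤ f y n}) (U : GU (sys L J I).Cd) :
    ¬ LeMod (El U) (cl U (idl _ (T e₁ e₂ J I))) (cl U ((sys L J I).fnNm (cf J I ξ)))
      (cl U ((sys L J I).fnNm f)) := by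
  let := (sys L J I).m ()
  have := ms_cf (J := J) (I := I) ξ
  rw [leMod_fnNm this hf]
  refine exists_of_el_idl (c := fun y => {n | cf J I ξ y n ≤ f y n ∧ Even n}) T_ms
    (measurable_set_iff.2 fun n => show Measurable fun y => f y n < cf J I ξ y n by fun_prop)
    T_even ⟨measurable_set_iff.2 fun n =>
      show Measurable fun y => cf J I ξ y n ≤ f y n ∧ Even n by fun_prop,
    h.mono fun y => Eventually.of_forall fun n h => h.1.1,
    small_empty.mono fun y => Eventually.of_forall fun n h => h.2 h.1.2⟩ T_union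
    fun y n hn => (lt_or_ge (f y n) _).imp (fun h => h) fun h => ⟨h, hn⟩

theorem not_leMod_odd (hf : (sys L J I).Ms () f)
    (h : Small e₂ fun y => {n | cf J I ξ y n ≤ f y n}) (U : GU (sys L J I).Cd) :
    ¬ LeMod (El U) (cl U (idl _ (T e₁ e₂ J I))) (cl U ((sys L J I).fnNm (cf J I ξ)))
      (cl U ((sys L J I).fnNm f)) := by
  let := (sys L J I).m ()
  have := ms_cf (J := J) (I := I) ξ
  rw [leMod_fnNm this hf]
  refine exists_of_el_idl (c := fun y => {n | cf J I ξ y n ≤ f y n ∧ ¬ Even n}) T_ms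
    (measurable_set_iff.2 fun n => show Measurable fun y => f y n < cf J I ξ y n by fun_prop)
    T_odd ⟨measurable_set_iff.2 fun n =>
      show Measurable fun y => cf J I ξ y n ≤ f y n ∧ ¬ Even n by fun_prop,
    small_empty.mono fun y => Eventually.of_forall fun n h => h.1.2 h.2,
    h.mono fun y => Eventually.of_forall fun n h => h.1.1⟩ T_union
    fun y n hn => (lt_or_ge (f y n) _).imp (fun h => h) fun h => ⟨h, hn⟩

theorem not_leStar (hf : (sys L J I).Ms () f)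
    (h : Small e₁ fun y => {n | cf J I ξ y n ≤ f y n}) (U : GU (sys L J I).Cd) :
    ¬ LeStar (El U) (cl U om) (cl U ((sys L J I).fnNm (cf J I ξ))) (cl U ((sys L J I).fnNm f)) :=
  not_leStar_of_ae (ms_cf ξ) hf
    ((h.frequently freq_even).mono fun _ hy => hy.mono fun _ hn => hn.2) U

variable [Infinite J] {U : GU (sys L J I).Cd}

theorem b_lower [Nonempty L] : ∀ F, Unbounded (El U) (cl U om) F →
    ¬ CardLe (El U) F (cl U (oN (#J).ord)) :=
  not_cardLe (fun U f g => ¬ LeStar (El U) (cl U om) f g) J fun _ hf =>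
    let ⟨d, h1, h2⟩ := exists_dom' hf
    ⟨d, h1, fun i U h => h (leStar_of_ae (hf i) h1 (h2 i) U)⟩

omit [Infinite J] in
theorem d_upper : ∃ F, Dominating (El U) (cl U om) F ∧
    CardLe (El U) F (cl U (oN (#(X L J → ℕ → ℕ)).ord)) := by
  let S := {g : X L J → ℕ → ℕ | (sys0 L J).Ms () g}
  have h : ∀ g : S, (sys L J I).Ms () fun y => g.1 y.1 := fun g => Ms.fst (s := sys0 L J) g.2
  refine exists_cardLe (fun U g f => LeStar (El U) (cl U om) f g) _ h (mk_set_le S)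
    (fun g hg => ?_) U
  obtain ⟨d, h1, h2⟩ := exists_bdd hg
  exact ⟨⟨d, h1⟩, leStar_of_ae hg (h ⟨d, h1⟩) h2⟩

variable [Reg W₁]

theorem b_upper (e₁ : W₁ ↪ L) (h : #J < #W₁) : ∃ F, Unbounded (El U) (cl U om) F ∧
    CardLe (El U) F (cl U (oN (#W₁).ord)) :=
  exists_cardLe (fun U f g => ¬ LeStar (El U) (cl U om) f g)
    (fun ξ => cf J I (e₁ ξ)) (fun _ => ms_cf _) le_rfl (fun g hg =>
      let ⟨ξ, h⟩ := exists_small e₁ h (Reg.countable_lt Unit) (f := fun _ => g) fun _ => hg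
      ⟨ξ, not_leStar hg (h ())⟩) U

theorem d_lower (e₁ : W₁ ↪ L) (h : #J < #W₁) {ι : Type} (h' : #ι < #W₁) :
    ∀ F, Dominating (El U) (cl U om) F → ¬ CardLe (El U) F (cl U (oN (#ι).ord)) :=
  not_cardLe (fun U g f => LeStar (El U) (cl U om) f g) ι fun _ hf =>
    let ⟨_, h⟩ := exists_small e₁ h h' hf
    ⟨_, ms_cf _, fun i => not_leStar (hf i) (h i)⟩

theorem bJ_upper (h : #J < #W₁) :
    ∃ F, UnboundedMod (El U) (cl U om) (cl U (idl _ (T e₁ e₂ J I))) F ∧
      CardLe (El U) F (cl U (oN (#W₁).ord)) :=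
  exists_cardLe (fun U f g => ¬ LeMod (El U) (cl U (idl _ (T e₁ e₂ J I))) f g)
    (fun ξ => cf J I (e₁ ξ)) (fun _ => ms_cf _) le_rfl (fun g hg =>
      let ⟨ξ, h⟩ := exists_small e₁ h (Reg.countable_lt Unit) (f := fun _ => g) fun _ => hg
      ⟨ξ, not_leMod_even hg (h ())⟩) U

variable [Reg W₂]

theorem bJ_lower (h : #J < #W₁) (h' : #W₁ < #W₂) {ι : Type} (hι : #ι < #W₁) :
    ∀ F, UnboundedMod (El U) (cl U om) (cl U (idl _ (T e₁ e₂ J I))) F →
      ¬ CardLe (El U) F (cl U (oN (#ι).ord)) :=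
  not_cardLe (fun U f g => ¬ LeMod (El U) (cl U (idl _ (T e₁ e₂ J I))) f g) ι fun _ hf =>
    let ⟨_, h1⟩ := exists_small e₁ h hι hf
    let ⟨_, h2⟩ := exists_small e₂ (h.trans h') (hι.trans h') hf
    ⟨_, ms_mix _ _, fun i U h => h (leMod_mix (hf i) (h1 i) (h2 i) U)⟩

omit [Reg W₁] in
theorem dJ_lower (h : #J < #W₁) (h' : #W₁ < #W₂) :
    ∀ F, DominatingMod (El U) (cl U om) (cl U (idl _ (T e₁ e₂ J I))) F →
      ¬ CardLe (El U) F (cl U (oN (#W₁).ord)) :=
  not_cardLe (fun U g f => LeMod (El U) (cl U (idl _ (T e₁ e₂ J I))) f g) W₁ fun _ hf =>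
    let ⟨_, h⟩ := exists_small e₂ (h.trans h') h' hf
    ⟨_, ms_cf _, fun i => not_leMod_odd (hf i) (h i)⟩

theorem dJ_upper (h : #J < #W₁) (h' : #W₁ < #W₂) :
    ∃ F, DominatingMod (El U) (cl U om) (cl U (idl _ (T e₁ e₂ J I))) F ∧
      CardLe (El U) F (cl U (oN (#W₂).ord)) :=
  exists_cardLe (fun U g f => LeMod (El U) (cl U (idl _ (T e₁ e₂ J I))) f g)
    (fun x : W₁ × W₂ => mix J I (e₁ x.1) (e₂ x.2)) (fun _ => ms_mix _ _)
    (by simpa using (mul_le_mul' h'.le le_rfl).trans (mul_eq_self (Reg.unc (W := W₂)).le).le)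
    (fun g hg =>
      let ⟨ξ, h1⟩ := exists_small e₁ h (Reg.countable_lt Unit) (f := fun _ => g) fun _ => hg
      let ⟨η, h2⟩ := exists_small e₂ (h.trans h') (Reg.countable_lt Unit) (f := fun _ => g)
        fun _ => hg
      ⟨(ξ, η), leMod_mix hg (h1 ()) (h2 ())⟩) U

end

theorem exists_reg (κ : Cardinal.{0}) :
    ∃ (W : Type) (_ : LinearOrder W), Reg W ∧ κ < #W :=
  ⟨(Order.succ (max κ ℵ₀)).ord.ToType, inferInstance,
    reg_toType (isRegular_succ (le_max_right _ _)) (Order.lt_succ_of_le (le_max_right _ _)),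
    by rw [mk_ord_toType]; exact Order.lt_succ_of_le (le_max_left _ _)⟩

theorem result : ∃ (M : Type 1) (E : M → M → Prop), IsZFC E ∧ ∃ w J a₁ b bJ dJ d c : M,
    IsOmega E w ∧ IsIdeal E w J ∧
    IsMinCard E (fun F => ¬ CardLe E F w) a₁ ∧
    IsMinCard E (Unbounded E w) b ∧ IsMinCard E (UnboundedMod E w J) bJ ∧
    IsMinCard E (DominatingMod E w J) dJ ∧ IsMinCard E (Dominating E w) d ∧
    IsMinCard E (NullCover E w) c ∧
    E a₁ b ∧ E b bJ ∧ E bJ dJ ∧ E dJ d ∧ E d c := by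
  obtain ⟨J, _, _, -⟩ := exists_reg 0
  obtain ⟨W₀, _, _, h0⟩ := exists_reg #J
  obtain ⟨W₁, _, _, h1⟩ := exists_reg #W₀
  obtain ⟨W₂, _, _, h2⟩ := exists_reg #W₁
  obtain ⟨L, _, _, h3⟩ := exists_reg #W₂
  obtain ⟨I, _, _, hI⟩ := exists_reg (max #J #(X L J → ℕ → ℕ))
  obtain ⟨e₂⟩ := h3.le
  obtain ⟨e₁⟩ := (h2.trans h3).le
  obtain ⟨e₀⟩ := (h1.trans (h2.trans h3)).le
  obtain ⟨U⟩ : Nonempty (GU (sys L J I).Cd) := inferInstance
  have a1 := exists_uncountable (s := sys0 L J) (Reg.unc (W := J)) (le_of_max_le_left hI.le) U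
  have b2 := b_upper (U := U) e₀ h0
  have c2 := bJ_upper (U := U) (e₁ := e₁) (e₂ := e₂) (h0.trans h1)
  have d2 := dJ_upper (U := U) (e₁ := e₁) (e₂ := e₂) (h0.trans h1) h2
  have e2 := d_upper (U := U)
  obtain ⟨o, f2⟩ := exists_nullCover (U := U)
  obtain ⟨a, ha⟩ := exists_isMinCard (fun U F => ¬ CardLe (El U) F (cl U om)) a1
  obtain ⟨b, hb⟩ := exists_isMinCard (fun U F => Unbounded (El U) (cl U om) F) b2
  obtain ⟨bJ, hbJ⟩ := exists_isMinCard
    (fun U F => UnboundedMod (El U) (cl U om) (cl U (idl _ (T e₁ e₂ J I))) F) c2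
  obtain ⟨dJ, hdJ⟩ := exists_isMinCard
    (fun U F => DominatingMod (El U) (cl U om) (cl U (idl _ (T e₁ e₂ J I))) F) d2
  obtain ⟨d, hd⟩ := exists_isMinCard (fun U F => Dominating (El U) (cl U om) F) e2
  obtain ⟨c, hc⟩ := exists_isMinCard (fun U F => NullCover (El U) (cl U om) F) f2
  exact ⟨_, El U, MU_zfc, _, _, a, b, bJ, dJ, d, c, isOmega_om, isIdeal U, ha, hb, hbJ, hdJ, hd, hc,
    ha.lt MU_zfc hb (isOrd_cl_on _) a1 b_lower,
    hb.lt MU_zfc hbJ (isOrd_cl_on _) b2 (bJ_lower (h0.trans h1) h2 h1),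
    hbJ.lt MU_zfc hdJ (isOrd_cl_on _) c2 (dJ_lower (h0.trans h1) h2),
    hdJ.lt MU_zfc hd (isOrd_cl_on _) d2
      (d_lower (Function.Embedding.refl L) (h0.trans (h1.trans (h2.trans h3))) h3),
    hd.lt MU_zfc hc (isOrd_cl_on _) e2
      (not_nullCover (s := sys0 L J) ((le_max_right _ _).trans_lt hI) Reg.unc U)⟩

end Pool.Agent.Results.MP_07d10b_lc.Consistency
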